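import Pool.Agent.Helper35.HC.StE

set_option autoImplicit false

namespace Pool.Agent.Helper21.HC

open Helper35.HC Helper35.PI Helper35.PI2 Helper32.CL Helper35.MS Helper35.HSF
open scoped ContDiff Manifold Topology ENNReal BigOperators
open MeasureTheory Set Filter

private lemma drv_le {a b : ℝ} (h : a ^ 2 ≤ b ^ 2) (hb : 0 ≤ b) : a ≤ b :=
  le_of_not_gt fun hlt => absurd h (not_le.mpr (pow_lt_pow_left₀ hlt hb two_ne_zero))

private lemma drv_norm {n N : ℕ} (L : EE n →ₗᵢ[ℝ] EE N) (x : Fin n → ℝ) :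
    ‖∑ k, x k • L (ee k)‖ ^ 2 = ∑ k, x k ^ 2 := by
  have h1 : ∑ k, x k • L (ee k) = L (∑ k, x k • ee k) := by
    rw [map_sum]
    exact Finset.sum_congr rfl fun k _ => (L.map_smul _ _).symm
  have h2 : (∑ k, x k • (ee k : EE n)) = WithLp.toLp 2 x := by
    ext i
    simp [ee, Finset.sum_apply, Pi.single_apply]
  rw [h1, L.norm_map, h2, EuclideanSpace.norm_sq_eq]
  simp

private lemma drv_bessel {n N : ℕ} (L : EE n →ₗᵢ[ℝ] EE N) (w : EE N) :
    ∑ k, (inner ℝ (L (ee k)) w : ℝ) ^ 2 ≤ ‖w‖ ^ 2 := by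
  have h0 := drv_norm L (fun k => (inner ℝ (L (ee k)) w : ℝ))
  set v := ∑ k, (inner ℝ (L (ee k)) w : ℝ) • L (ee k) with hv
  have h1 : (inner ℝ v w : ℝ) = ∑ k, (inner ℝ (L (ee k)) w : ℝ) ^ 2 := by
    rw [hv, sum_inner]
    refine Finset.sum_congr rfl fun k _ => ?_
    rw [real_inner_smul_left]
    ring
  have h2 := real_inner_le_norm v w
  rw [h1, ← h0] at h2
  rw [← h0]
  by_cases hz : ‖v‖ = 0
  · rw [hz]
    have := sq_nonneg ‖w‖
    linarith
  · have hp : 0 < ‖v‖ := lt_of_le_of_ne (norm_nonneg _) (Ne.symm hz)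
    have h3 : ‖v‖ ≤ ‖w‖ := by
      have : ‖v‖ * ‖v‖ ≤ ‖v‖ * ‖w‖ := by nlinarith
      exact le_of_mul_le_mul_left this hp
    exact pow_le_pow_left₀ (norm_nonneg _) h3 2

/-- one vector -/
private lemma drv_one {n N : ℕ} (L : EE n →ₗᵢ[ℝ] EE N) (e : Fin n → EE N) (u : EE N) :
    ‖∑ k, (inner ℝ (e k) u : ℝ) • L (ee k)‖ ≤ ‖u‖ * Real.sqrt (∑ k, ‖e k‖ ^ 2) := by
  have h0 := drv_norm L (fun k => (inner ℝ (e k) u : ℝ))
  have h1 : ∑ k, (inner ℝ (e k) u : ℝ) ^ 2 ≤ ‖u‖ ^ 2 * ∑ k, ‖e k‖ ^ 2 := by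
    rw [Finset.mul_sum]
    refine Finset.sum_le_sum fun k _ => ?_
    have h := abs_real_inner_le_norm (e k) u
    calc (inner ℝ (e k) u : ℝ) ^ 2 = |(inner ℝ (e k) u : ℝ)| ^ 2 := (sq_abs _).symm
      _ ≤ (‖e k‖ * ‖u‖) ^ 2 := pow_le_pow_left₀ (abs_nonneg _) h 2
      _ = ‖u‖ ^ 2 * ‖e k‖ ^ 2 := by ring
  have h2 : ‖∑ k, (inner ℝ (e k) u : ℝ) • L (ee k)‖ ^ 2 ≤
      (‖u‖ * Real.sqrt (∑ k, ‖e k‖ ^ 2)) ^ 2 := by
    rw [h0, mul_pow, Real.sq_sqrt (Finset.sum_nonneg fun k _ => by positivity)]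
    exact h1
  have hb : 0 ≤ ‖u‖ * Real.sqrt (∑ k, ‖e k‖ ^ 2) := mul_nonneg (norm_nonneg _) (Real.sqrt_nonneg _)
  exact drv_le (a := ‖∑ k, (inner ℝ (e k) u : ℝ) • L (ee k)‖) h2 hb

/-- two indices -/
private lemma drv_two {n N : ℕ} (L : EE n →ₗᵢ[ℝ] EE N) (a : Fin n → Fin n → EE N) (u : EE N)
    (c : Fin n → ℝ) (hc : ∑ i, c i ^ 2 ≤ 1) :
    ‖∑ k, (∑ i, c i * (inner ℝ (a i k) u : ℝ)) • L (ee k)‖ ≤
      ‖u‖ * Real.sqrt (∑ i, ∑ k, ‖a i k‖ ^ 2) := by
  have h0 := drv_norm L (fun k => (∑ i, c i * (inner ℝ (a i k) u : ℝ)))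
  have h1 : ∑ k, (∑ i, c i * (inner ℝ (a i k) u : ℝ)) ^ 2 ≤ ‖u‖ ^ 2 * ∑ i, ∑ k, ‖a i k‖ ^ 2 := by
    have h3 : ∀ k, (∑ i, c i * (inner ℝ (a i k) u : ℝ)) ^ 2 ≤ ∑ i, ‖u‖ ^ 2 * ‖a i k‖ ^ 2 := by
      intro k
      have h4 := Finset.sum_mul_sq_le_sq_mul_sq Finset.univ c (fun i => (inner ℝ (a i k) u : ℝ))
      have h5 : ∑ i, (inner ℝ (a i k) u : ℝ) ^ 2 ≤ ∑ i, ‖u‖ ^ 2 * ‖a i k‖ ^ 2 := by
        refine Finset.sum_le_sum fun i _ => ?_
        have h := abs_real_inner_le_norm (a i k) u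
        calc (inner ℝ (a i k) u : ℝ) ^ 2 = |(inner ℝ (a i k) u : ℝ)| ^ 2 := (sq_abs _).symm
          _ ≤ (‖a i k‖ * ‖u‖) ^ 2 := pow_le_pow_left₀ (abs_nonneg _) h 2
          _ = ‖u‖ ^ 2 * ‖a i k‖ ^ 2 := by ring
      have h6 : 0 ≤ ∑ i, (inner ℝ (a i k) u : ℝ) ^ 2 := Finset.sum_nonneg fun i _ => sq_nonneg _
      have h7 : (∑ i, c i ^ 2) * ∑ i, (inner ℝ (a i k) u : ℝ) ^ 2 ≤
          1 * ∑ i, (inner ℝ (a i k) u : ℝ) ^ 2 := mul_le_mul_of_nonneg_right hc h6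
      linarith
    refine le_trans (Finset.sum_le_sum fun k _ => h3 k) (le_of_eq ?_)
    rw [Finset.sum_comm, Finset.mul_sum]
    exact Finset.sum_congr rfl fun i _ => by rw [Finset.mul_sum]
  have h2 : ‖∑ k, (∑ i, c i * (inner ℝ (a i k) u : ℝ)) • L (ee k)‖ ^ 2 ≤
      (‖u‖ * Real.sqrt (∑ i, ∑ k, ‖a i k‖ ^ 2)) ^ 2 := by
    rw [h0, mul_pow, Real.sq_sqrt (Finset.sum_nonneg fun i _ =>
      Finset.sum_nonneg fun k _ => by positivity)]
    exact h1
  have hb : 0 ≤ ‖u‖ * Real.sqrt (∑ i, ∑ k, ‖a i k‖ ^ 2) :=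
    mul_nonneg (norm_nonneg _) (Real.sqrt_nonneg _)
  exact drv_le (a := ‖∑ k, (∑ i, c i * (inner ℝ (a i k) u : ℝ)) • L (ee k)‖) h2 hb

/-- traceless part -/
private noncomputable def a0 {n N : ℕ} (A : Fin n → Fin n → EE N) (i k : Fin n) : EE N :=
  A i k - if i = k then (1 / (n : ℝ)) • Hv A else 0

private lemma drv_a0 {n N : ℕ} (hn : 1 ≤ n) (A : Fin n → Fin n → EE N) :
    ∑ i, ∑ k, ‖a0 A i k‖ ^ 2 = thA2 A := by
  have hn' : (n : ℝ) ≠ 0 := by
    have : (0 : ℝ) < n := by exact_mod_cast hn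
    exact this.ne'
  have h1 : ∀ i k, ‖a0 A i k‖ ^ 2 = ‖A i k‖ ^ 2 +
      (if i = k then (-2 / (n : ℝ)) * (inner ℝ (A i i) (Hv A) : ℝ) +
        ‖Hv A‖ ^ 2 / (n : ℝ) ^ 2 else 0) := by
    intro i k
    unfold a0
    by_cases h : i = k
    · subst h
      simp only [if_true]
      rw [norm_sub_sq_real, real_inner_smul_right, norm_smul]
      rw [mul_pow, Real.norm_eq_abs, sq_abs]
      ring
    · simp [h]
  simp only [h1, Finset.sum_add_distrib, Finset.sum_ite_eq, Finset.mem_univ, if_true]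
  rw [← Finset.mul_sum, ← sum_inner]
  have h2 : (∑ i, A i i) = Hv A := rfl
  rw [h2, real_inner_self_eq_norm_sq]
  unfold thA2 XX YY
  simp only [Finset.sum_const, Finset.card_univ, Fintype.card_fin, nsmul_eq_mul]
  field_simp
  ring

private lemma drv_split {n N : ℕ} (A : Fin n → Fin n → EE N) (c : Fin n → ℝ) (u : EE N) (k : Fin n) :
    ∑ i, c i * (inner ℝ (A i k) u : ℝ) = ∑ i, c i * (inner ℝ (a0 A i k) u : ℝ) +
      c k * ((1 / (n : ℝ)) * inner ℝ (Hv A) u) := by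
  have h1 : ∀ i, (inner ℝ (A i k) u : ℝ) = inner ℝ (a0 A i k) u +
      (if i = k then (1 / (n : ℝ)) * inner ℝ (Hv A) u else 0) := by
    intro i
    unfold a0
    by_cases h : i = k
    · simp only [h, if_true]
      rw [inner_sub_left, real_inner_smul_left]
      ring
    · simp [h]
  simp only [h1, mul_add, Finset.sum_add_distrib, mul_ite, mul_zero, Finset.sum_ite_eq',
    Finset.mem_univ, if_true]

theorem hDRV (hDR0 : StDR0) (hEPW : StEPW) (hHTR : StHTR) (hSMF : StSMF) : StDRV := by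
  intro n N hn M _ _ _ J F hF hH
  have hI : IsImmJ (n := n) J F := hF.toIsImmJ
  obtain ⟨hsF, hsH, hsA, hsY, hsT, hsFc, -, -⟩ := hSMF n N M J F hI
  obtain ⟨hsm, hdr⟩ := hDR0 n N hn M J F hF
  have hnp : (0 : ℝ) < n := by exact_mod_cast hn
  have hYpos : ∀ q, ∀ t ∈ J, 0 < ‖HH (n := n) F q t‖ ^ 2 := fun q t ht =>
    pow_pos (norm_pos_iff.mpr (hH q t ht)) 2
  obtain ⟨hsYi, hgYi⟩ := hEPW n N M J F hI (fun q t => ‖HH (n := n) F q t‖ ^ 2) (-1) hsY hYpos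
  obtain ⟨hsYh, hgYh⟩ := hEPW n N M J F hI (fun q t => ‖HH (n := n) F q t‖ ^ 2) (1 / 2) hsY hYpos
  have hinv : ∀ q t, (‖HH (n := n) F q t‖ ^ 2) ^ (-1 : ℝ) = 1 / ‖HH (n := n) F q t‖ ^ 2 := by
    intro q t
    rw [Real.rpow_neg_one, one_div]
  have hhalf : ∀ q t, (‖HH (n := n) F q t‖ ^ 2) ^ (1 / 2 : ℝ) = ‖HH (n := n) F q t‖ := by
    intro q t
    rw [← Real.sqrt_eq_rpow, Real.sqrt_sq (norm_nonneg _)]
  -- smoothness of the centre
  have hsc : SmV n J (cF n F) := by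
    have h1 : SmJ n J (fun q t => (n : ℝ) * (‖HH (n := n) F q t‖ ^ 2) ^ (-1 : ℝ)
        + 0 * ‖HH (n := n) F q t‖ ^ 2) :=
      ((hHTR n N M J F hI _ _ hsYi hsY).2.1 (n : ℝ) 0).1
    have h3 : ContMDiffOn ((𝓡 n).prod 𝓘(ℝ, ℝ)) 𝓘(ℝ, EE N) ∞
        (fun z : M × ℝ => ((n : ℝ) * (‖HH (n := n) F z.1 z.2‖ ^ 2) ^ (-1 : ℝ)
          + 0 * ‖HH (n := n) F z.1 z.2‖ ^ 2) • HH (n := n) F z.1 z.2) (univ ×ˢ J) :=
      ContMDiffOn.smul h1 hsH
    have h2 : ContMDiffOn ((𝓡 n).prod 𝓘(ℝ, ℝ)) 𝓘(ℝ, EE N) ∞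
        (fun z : M × ℝ => F z.1 z.2 + ((n : ℝ) * (‖HH (n := n) F z.1 z.2‖ ^ 2) ^ (-1 : ℝ)
          + 0 * ‖HH (n := n) F z.1 z.2‖ ^ 2) • HH (n := n) F z.1 z.2) (univ ×ˢ J) :=
      ContMDiffOn.add hsF h3
    refine ContMDiffOn.congr h2 fun z _ => ?_
    show cF n F z.1 z.2 = F z.1 z.2 + ((n : ℝ) * (‖HH (n := n) F z.1 z.2‖ ^ 2) ^ (-1 : ℝ)
          + 0 * ‖HH (n := n) F z.1 z.2‖ ^ 2) • HH (n := n) F z.1 z.2
    unfold cF
    rw [hinv]
    congr 2
    ring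
  have hsk : SmJ n J (kH n F) := by
    have h1 : SmJ n J (fun q t => (1 / (n : ℝ)) * (‖HH (n := n) F q t‖ ^ 2) ^ (1 / 2 : ℝ)
        + 0 * ‖HH (n := n) F q t‖ ^ 2) :=
      ((hHTR n N M J F hI _ _ hsYh hsY).2.1 (1 / (n : ℝ)) 0).1
    refine ContMDiffOn.congr h1 fun z _ => ?_
    show kH n F z.1 z.2 = (1 / (n : ℝ)) * (‖HH (n := n) F z.1 z.2‖ ^ 2) ^ (1 / 2 : ℝ)
        + 0 * ‖HH (n := n) F z.1 z.2‖ ^ 2
    unfold kH
    rw [hhalf]
    ring
  -- squares of the components of the mean curvature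
  have hp1 := fun w : EE N => hHTR n N M J F hI _ _ (hsm w).1 (hsm w).1
  have hp2 := fun w : EE N => hHTR n N M J F hI _ _ hsYi (hsm w).1
  have hp3 := fun w : EE N => hHTR n N M J F hI _ _ (hp2 w).1.1 (hsm w).1
  have hsg : ∀ w : EE N, SmJ n J (gw n F w) := by
    intro w
    have h1 := ((hHTR n N M J F hI _ _ (hsm w).2 (hp3 w).1.1).2.1 1 1).1
    refine ContMDiffOn.congr h1 fun z _ => ?_
    show gw n F w z.1 z.2 =
      1 * ‖gdM n F z.2 (fun p => (inner ℝ (F p z.2) w : ℝ)) z.1‖ ^ 2 +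
      1 * ((‖HH (n := n) F z.1 z.2‖ ^ 2) ^ (-1 : ℝ) * (inner ℝ (HH (n := n) F z.1 z.2) w : ℝ) *
        (inner ℝ (HH (n := n) F z.1 z.2) w : ℝ))
    unfold gw
    rw [hinv]
    ring
  refine ⟨hsc, hsk, hsg, ?_⟩
  intro q t ht
  obtain ⟨L, A, T, hsymA, hsymT, -, hrg, hXX, hHv, hth, heH, hgY, hw⟩ := hdr q t ht
  have hth0 : 0 ≤ thN n F q t := by
    rw [hth, ← drv_a0 hn A]
    exact Finset.sum_nonneg fun i _ => Finset.sum_nonneg fun k _ => by positivity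
  have heH0 : 0 ≤ eH n F q t := by
    rw [heH]
    exact Finset.sum_nonneg fun k _ => by positivity
  have hYq : 0 < ‖HH (n := n) F q t‖ ^ 2 := hYpos q t ht
  have hNq : 0 < ‖HH (n := n) F q t‖ := norm_pos_iff.mpr (hH q t ht)
  refine ⟨hth0, heH0, ?_, ?_⟩
  · -- gradient of kH
    have e1 : (fun p => kH n F p t) = fun p => (1 / (n : ℝ)) *
        (fun q t => (‖HH (n := n) F q t‖ ^ 2) ^ (1 / 2 : ℝ)) p t
        + 0 * (fun q t => ‖HH (n := n) F q t‖ ^ 2) p t := by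
      funext p
      show kH n F p t = (1 / (n : ℝ)) * (‖HH (n := n) F p t‖ ^ 2) ^ (1 / 2 : ℝ)
        + 0 * ‖HH (n := n) F p t‖ ^ 2
      unfold kH
      rw [hhalf]
      ring
    have e2 := ((hHTR n N M J F hI _ _ hsYh hsY).2.1 (1 / (n : ℝ)) 0).2 q t ht
    have e3 := (hgYh q t ht).1
    rw [e1, e2.1, zero_smul, add_zero, e3, hgY, smul_smul, Finset.smul_sum]
    have e4 : (‖HH (n := n) F q t‖ ^ 2) ^ ((1 / 2 : ℝ) - 1) = 1 / ‖HH (n := n) F q t‖ := by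
      rw [Real.rpow_sub_one hYq.ne', hhalf]
      field_simp
    rw [e4]
    have e5 : ∀ k : Fin n, (1 / (n : ℝ) * (1 / 2 * (1 / ‖HH (n := n) F q t‖))) •
        (2 * (inner ℝ (Hv A) (et T k) : ℝ)) • L (ee k) =
        (1 / ((n : ℝ) * ‖HH (n := n) F q t‖)) • ((inner ℝ (et T k) (Hv A) : ℝ) • L (ee k)) := by
      intro k
      rw [smul_smul, smul_smul, real_inner_comm]
      congr 1
      field_simp
    rw [Finset.sum_congr rfl fun k _ => e5 k, ← Finset.smul_sum, norm_smul]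
    have e6 := drv_one L (et T) (Hv A)
    have e7 : ∑ k, ‖et T k‖ ^ 2 = eH n F q t := by rw [heH]; rfl
    rw [e7, ← hHv] at e6
    have e8 : ‖(1 / ((n : ℝ) * ‖HH (n := n) F q t‖))‖ = 1 / ((n : ℝ) * ‖HH (n := n) F q t‖) := by
      rw [Real.norm_eq_abs, abs_of_pos (by positivity)]
    rw [e8]
    rw [← hHv]
    calc 1 / ((n : ℝ) * ‖HH (n := n) F q t‖) *
          ‖∑ k, (inner ℝ (et T k) (HH (n := n) F q t) : ℝ) • L (ee k)‖
        ≤ 1 / ((n : ℝ) * ‖HH (n := n) F q t‖) * (‖HH (n := n) F q t‖ * √(eH n F q t)) :=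
          mul_le_mul_of_nonneg_left e6 (by positivity)
      _ = √(eH n F q t) / n := by field_simp
  · intro w hw1
    obtain ⟨hgF, hgH, hgT⟩ := hw w
    have hbes : ∑ i, (inner ℝ (L (ee i)) w : ℝ) ^ 2 ≤ 1 := by
      refine le_trans (drv_bessel L w) ?_
      calc ‖w‖ ^ 2 ≤ 1 ^ 2 := pow_le_pow_left₀ (norm_nonneg _) hw1 2
        _ = 1 := one_pow 2
    have e7 : ∑ k, ‖et T k‖ ^ 2 = eH n F q t := by rw [heH]; rfl
    have e9 : ∑ i, ∑ k, ‖a0 A i k‖ ^ 2 = thN n F q t := by rw [hth]; exact drv_a0 hn A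
    have eYi : (‖HH (n := n) F q t‖ ^ 2) ^ ((-1 : ℝ) - 1) = (1 / ‖HH (n := n) F q t‖ ^ 2) ^ 2 := by
      rw [Real.rpow_sub_one hYq.ne', hinv]
      field_simp
    have hgYi' : gdM n F t (fun q => (‖HH (n := n) F q t‖ ^ 2) ^ (-1 : ℝ)) q =
        (-1 * (1 / ‖HH (n := n) F q t‖ ^ 2) ^ 2) •
          ∑ k, (2 * (inner ℝ (Hv A) (et T k) : ℝ)) • L (ee k) := by
      have h := (hgYi q t ht).1
      rw [h, hgY, eYi]
    have hp2' : gdM n F t (fun q => (‖HH (n := n) F q t‖ ^ 2) ^ (-1 : ℝ) *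
        (inner ℝ (HH (n := n) F q t) w : ℝ)) q =
        (1 / ‖HH (n := n) F q t‖ ^ 2) • gdM n F t (fun p => (inner ℝ (HH (n := n) F p t) w : ℝ)) q +
        (inner ℝ (HH (n := n) F q t) w : ℝ) •
          gdM n F t (fun q => (‖HH (n := n) F q t‖ ^ 2) ^ (-1 : ℝ)) q := by
      have h := ((hp2 w).1.2 q t ht).1
      rw [← hinv]
      exact h
    constructor
    · -- the centre
      have e1 : (fun p => (inner ℝ (cF n F p t) w : ℝ)) = fun p => 1 *
          (fun q t => (inner ℝ (F q t) w : ℝ)) p t + (n : ℝ) * (fun q t =>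
            (‖HH (n := n) F q t‖ ^ 2) ^ (-1 : ℝ) * (inner ℝ (HH (n := n) F q t) w : ℝ)) p t := by
        funext p
        show (inner ℝ (cF n F p t) w : ℝ) = 1 * (inner ℝ (F p t) w : ℝ) + (n : ℝ) *
          ((‖HH (n := n) F p t‖ ^ 2) ^ (-1 : ℝ) * (inner ℝ (HH (n := n) F p t) w : ℝ))
        unfold cF
        rw [inner_add_left, real_inner_smul_left, hinv]
        ring
      have e2 := ((hHTR n N M J F hI _ _ (hsFc w) (hp2 w).1.1).2.1 1 (n : ℝ)).2 q t ht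
      have e3 := e2.1
      rw [e1, e3]
      have e10 : (1 : ℝ) • gdM n F t (fun q => (inner ℝ (F q t) w : ℝ)) q +
          (n : ℝ) • gdM n F t (fun q => (‖HH (n := n) F q t‖ ^ 2) ^ (-1 : ℝ) *
            (inner ℝ (HH (n := n) F q t) w : ℝ)) q =
          ((n : ℝ) / ‖HH (n := n) F q t‖ ^ 2) • (∑ k, (inner ℝ (et T k)
            (w - (2 * (inner ℝ (HH (n := n) F q t) w : ℝ) / ‖HH (n := n) F q t‖ ^ 2) •
              HH (n := n) F q t) : ℝ) • L (ee k)) -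
          ((n : ℝ) / ‖HH (n := n) F q t‖ ^ 2) • (∑ k, (∑ i, (inner ℝ (L (ee i)) w : ℝ) *
            (inner ℝ (a0 A i k) (HH (n := n) F q t) : ℝ)) • L (ee k)) := by
        rw [hp2', hgYi', hgF, hgH]
        simp only [Finset.smul_sum, smul_add, smul_smul, one_smul, one_mul]
        rw [← Finset.sum_add_distrib, ← Finset.sum_add_distrib, ← Finset.sum_sub_distrib]
        refine Finset.sum_congr rfl fun k _ => ?_
        simp only [← add_smul, ← sub_smul]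
        congr 1
        have e11 := drv_split A (fun i => (inner ℝ (L (ee i)) w : ℝ)) (Hv A) k
        rw [real_inner_self_eq_norm_sq] at e11
        have e12 : ∑ a, (inner ℝ (Hv A) (A a k) : ℝ) * inner ℝ (L (ee a)) w =
            ∑ i, (inner ℝ (L (ee i)) w : ℝ) * (inner ℝ (A i k) (Hv A) : ℝ) :=
          Finset.sum_congr rfl fun a _ => by rw [real_inner_comm (A a k) (Hv A)]; ring
        rw [e12, e11, inner_sub_right, real_inner_smul_right, ← hHv,
          real_inner_comm (et T k) (HH (n := n) F q t)]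
        have hYne : ‖HH (n := n) F q t‖ ^ 2 ≠ 0 := hYq.ne'
        field_simp
        ring
      have e13 : ‖w - (2 * (inner ℝ (HH (n := n) F q t) w : ℝ) / ‖HH (n := n) F q t‖ ^ 2) •
              HH (n := n) F q t‖ ≤ 1 := by
        have h : ‖w - (2 * (inner ℝ (HH (n := n) F q t) w : ℝ) / ‖HH (n := n) F q t‖ ^ 2) •
              HH (n := n) F q t‖ ^ 2 = ‖w‖ ^ 2 := by
          rw [norm_sub_sq_real, real_inner_smul_right, norm_smul, mul_pow, Real.norm_eq_abs, sq_abs,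
            real_inner_comm w (HH (n := n) F q t)]
          field_simp
          ring
        have h2 : ‖w - (2 * (inner ℝ (HH (n := n) F q t) w : ℝ) / ‖HH (n := n) F q t‖ ^ 2) •
              HH (n := n) F q t‖ = ‖w‖ := by
          rw [← Real.sqrt_sq (norm_nonneg (w - _)), h, Real.sqrt_sq (norm_nonneg _)]
        rw [h2]
        exact hw1
      show ‖(1 : ℝ) • gdM n F t (fun q => (inner ℝ (F q t) w : ℝ)) q +
          (n : ℝ) • gdM n F t (fun q => (‖HH (n := n) F q t‖ ^ 2) ^ (-1 : ℝ) *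
            (inner ℝ (HH (n := n) F q t) w : ℝ)) q‖ ≤ _
      rw [e10]
      refine le_trans (norm_sub_le _ _) ?_
      rw [norm_smul, norm_smul, Real.norm_eq_abs, abs_of_pos (by positivity)]
      have e14 := drv_one L (et T) (w - (2 * (inner ℝ (HH (n := n) F q t) w : ℝ) /
        ‖HH (n := n) F q t‖ ^ 2) • HH (n := n) F q t)
      have e15 := drv_two L (a0 A) (HH (n := n) F q t) (fun i => (inner ℝ (L (ee i)) w : ℝ)) hbes
      rw [e7] at e14
      rw [e9] at e15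
      have e16 : ‖w - (2 * (inner ℝ (HH (n := n) F q t) w : ℝ) / ‖HH (n := n) F q t‖ ^ 2) •
              HH (n := n) F q t‖ * √(eH n F q t) ≤ 1 * √(eH n F q t) :=
        mul_le_mul_of_nonneg_right e13 (Real.sqrt_nonneg _)
      have e17 : (0 : ℝ) ≤ (n : ℝ) / ‖HH (n := n) F q t‖ ^ 2 := by positivity
      calc (n : ℝ) / ‖HH (n := n) F q t‖ ^ 2 * _ + (n : ℝ) / ‖HH (n := n) F q t‖ ^ 2 * _
          ≤ (n : ℝ) / ‖HH (n := n) F q t‖ ^ 2 * (1 * √(eH n F q t)) +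
            (n : ℝ) / ‖HH (n := n) F q t‖ ^ 2 * (‖HH (n := n) F q t‖ * √(thN n F q t)) :=
            add_le_add (mul_le_mul_of_nonneg_left (le_trans e14 e16) e17)
              (mul_le_mul_of_nonneg_left e15 e17)
        _ = n * √(eH n F q t) / ‖HH (n := n) F q t‖ ^ 2
          + n * √(thN n F q t) / ‖HH (n := n) F q t‖ := by
            field_simp
    · -- the tilt
      have e1 : (fun p => gw n F w p t) = fun p => 1 *
          (fun q t => ‖gdM n F t (fun p => (inner ℝ (F p t) w : ℝ)) q‖ ^ 2) p t +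
          1 * (fun q t => ((fun q t => (‖HH (n := n) F q t‖ ^ 2) ^ (-1 : ℝ) *
            (inner ℝ (HH (n := n) F q t) w : ℝ)) q t) *
              (inner ℝ (HH (n := n) F q t) w : ℝ)) p t := by
        funext p
        show gw n F w p t = 1 * ‖gdM n F t (fun p => (inner ℝ (F p t) w : ℝ)) p‖ ^ 2 +
          1 * (((‖HH (n := n) F p t‖ ^ 2) ^ (-1 : ℝ) *
            (inner ℝ (HH (n := n) F p t) w : ℝ)) * (inner ℝ (HH (n := n) F p t) w : ℝ))
        unfold gw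
        rw [hinv]
        ring
      have e2 := ((hHTR n N M J F hI _ _ (hsm w).2 (hp3 w).1.1).2.1 1 1).2 q t ht
      have e3 := e2.1
      have e4 := ((hp3 w).1.2 q t ht).1
      rw [e1, e3]
      have e10 : (1 : ℝ) • gdM n F t (fun q => ‖gdM n F t (fun p => (inner ℝ (F p t) w : ℝ)) q‖ ^ 2) q +
          (1 : ℝ) • gdM n F t (fun q => ((‖HH (n := n) F q t‖ ^ 2) ^ (-1 : ℝ) *
            (inner ℝ (HH (n := n) F q t) w : ℝ)) * (inner ℝ (HH (n := n) F q t) w : ℝ)) q =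
          (2 : ℝ) • (∑ k, (∑ i, (inner ℝ (L (ee i)) w : ℝ) *
            (inner ℝ (a0 A i k) (w - ((inner ℝ (HH (n := n) F q t) w : ℝ) /
              ‖HH (n := n) F q t‖ ^ 2) • HH (n := n) F q t) : ℝ)) • L (ee k)) +
          (2 / ‖HH (n := n) F q t‖ ^ 2 * (inner ℝ (HH (n := n) F q t) w : ℝ)) •
            (∑ k, (inner ℝ (et T k)
            (w - ((inner ℝ (HH (n := n) F q t) w : ℝ) / ‖HH (n := n) F q t‖ ^ 2) •
              HH (n := n) F q t) : ℝ) • L (ee k)) := by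
        have e4' : gdM n F t (fun q => ((‖HH (n := n) F q t‖ ^ 2) ^ (-1 : ℝ) *
            (inner ℝ (HH (n := n) F q t) w : ℝ)) * (inner ℝ (HH (n := n) F q t) w : ℝ)) q =
            ((1 / ‖HH (n := n) F q t‖ ^ 2) * (inner ℝ (HH (n := n) F q t) w : ℝ)) •
              gdM n F t (fun p => (inner ℝ (HH (n := n) F p t) w : ℝ)) q +
            (inner ℝ (HH (n := n) F q t) w : ℝ) •
              gdM n F t (fun q => (‖HH (n := n) F q t‖ ^ 2) ^ (-1 : ℝ) *
                (inner ℝ (HH (n := n) F q t) w : ℝ)) q := by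
          rw [← hinv]
          exact e4
        rw [e4', hp2', hgYi', hgT, hgH]
        simp only [Finset.smul_sum, smul_add, smul_smul, one_smul, one_mul]
        simp only [← Finset.sum_add_distrib]
        refine Finset.sum_congr rfl fun k _ => ?_
        simp only [← add_smul]
        congr 1
        have e11 := drv_split A (fun i => (inner ℝ (L (ee i)) w : ℝ)) (Hv A) k
        rw [real_inner_self_eq_norm_sq] at e11
        have e11' := drv_split A (fun i => (inner ℝ (L (ee i)) w : ℝ)) w k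
        have e12 : ∑ a, (inner ℝ (Hv A) (A a k) : ℝ) * inner ℝ (L (ee a)) w =
            ∑ i, (inner ℝ (L (ee i)) w : ℝ) * (inner ℝ (A i k) (Hv A) : ℝ) :=
          Finset.sum_congr rfl fun a _ => by rw [real_inner_comm (A a k) (Hv A)]; ring
        have e18 : ∑ i, (inner ℝ (L (ee i)) w : ℝ) *
            (inner ℝ (a0 A i k) (w - ((inner ℝ (HH (n := n) F q t) w : ℝ) /
              ‖HH (n := n) F q t‖ ^ 2) • HH (n := n) F q t) : ℝ) =
            ∑ i, (inner ℝ (L (ee i)) w : ℝ) * (inner ℝ (a0 A i k) w : ℝ) -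
            ((inner ℝ (HH (n := n) F q t) w : ℝ) / ‖HH (n := n) F q t‖ ^ 2) *
              ∑ i, (inner ℝ (L (ee i)) w : ℝ) * (inner ℝ (a0 A i k) (HH (n := n) F q t) : ℝ) := by
          rw [Finset.mul_sum, ← Finset.sum_sub_distrib]
          refine Finset.sum_congr rfl fun i _ => ?_
          rw [inner_sub_right, real_inner_smul_right]
          ring
        rw [e18, e12, e11, e11', inner_sub_right, real_inner_smul_right, ← hHv,
          real_inner_comm (et T k) (HH (n := n) F q t)]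
        have hYne : ‖HH (n := n) F q t‖ ^ 2 ≠ 0 := hYq.ne'
        field_simp
        ring
      have e13 : ‖w - ((inner ℝ (HH (n := n) F q t) w : ℝ) / ‖HH (n := n) F q t‖ ^ 2) •
              HH (n := n) F q t‖ ≤ 1 := by
        have h : ‖w - ((inner ℝ (HH (n := n) F q t) w : ℝ) / ‖HH (n := n) F q t‖ ^ 2) •
              HH (n := n) F q t‖ ^ 2 ≤ 1 ^ 2 := by
          have h3 : ‖w - ((inner ℝ (HH (n := n) F q t) w : ℝ) / ‖HH (n := n) F q t‖ ^ 2) •
              HH (n := n) F q t‖ ^ 2 = ‖w‖ ^ 2 -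
              (inner ℝ (HH (n := n) F q t) w : ℝ) ^ 2 / ‖HH (n := n) F q t‖ ^ 2 := by
            rw [norm_sub_sq_real, real_inner_smul_right, norm_smul, mul_pow, Real.norm_eq_abs,
              sq_abs, real_inner_comm w (HH (n := n) F q t)]
            field_simp
            ring
          have h4 : 0 ≤ (inner ℝ (HH (n := n) F q t) w : ℝ) ^ 2 / ‖HH (n := n) F q t‖ ^ 2 := by
            positivity
          have h5 : ‖w‖ ^ 2 ≤ 1 ^ 2 := pow_le_pow_left₀ (norm_nonneg _) hw1 2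
          linarith
        exact drv_le h zero_le_one
      show ‖(1 : ℝ) • gdM n F t (fun q => ‖gdM n F t (fun p => (inner ℝ (F p t) w : ℝ)) q‖ ^ 2) q +
          (1 : ℝ) • gdM n F t (fun q => ((‖HH (n := n) F q t‖ ^ 2) ^ (-1 : ℝ) *
            (inner ℝ (HH (n := n) F q t) w : ℝ)) * (inner ℝ (HH (n := n) F q t) w : ℝ)) q‖ ≤ _
      rw [e10]
      refine le_trans (norm_add_le _ _) ?_
      rw [norm_smul, norm_smul]
      have e14 := drv_one L (et T) (w - ((inner ℝ (HH (n := n) F q t) w : ℝ) /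
        ‖HH (n := n) F q t‖ ^ 2) • HH (n := n) F q t)
      have e15 := drv_two L (a0 A) (w - ((inner ℝ (HH (n := n) F q t) w : ℝ) /
        ‖HH (n := n) F q t‖ ^ 2) • HH (n := n) F q t) (fun i => (inner ℝ (L (ee i)) w : ℝ)) hbes
      rw [e7] at e14
      rw [e9] at e15
      have e16 : ‖w - ((inner ℝ (HH (n := n) F q t) w : ℝ) / ‖HH (n := n) F q t‖ ^ 2) •
              HH (n := n) F q t‖ * √(eH n F q t) ≤ 1 * √(eH n F q t) :=
        mul_le_mul_of_nonneg_right e13 (Real.sqrt_nonneg _)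
      have e16' : ‖w - ((inner ℝ (HH (n := n) F q t) w : ℝ) / ‖HH (n := n) F q t‖ ^ 2) •
              HH (n := n) F q t‖ * √(thN n F q t) ≤ 1 * √(thN n F q t) :=
        mul_le_mul_of_nonneg_right e13 (Real.sqrt_nonneg _)
      have e19 : ‖(2 / ‖HH (n := n) F q t‖ ^ 2 * (inner ℝ (HH (n := n) F q t) w : ℝ))‖ ≤
          2 / ‖HH (n := n) F q t‖ := by
        rw [Real.norm_eq_abs, abs_mul, abs_of_pos (by positivity : (0 : ℝ) < 2 / ‖HH (n := n) F q t‖ ^ 2)]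
        have h := abs_real_inner_le_norm (HH (n := n) F q t) w
        have h2 : ‖HH (n := n) F q t‖ * ‖w‖ ≤ ‖HH (n := n) F q t‖ * 1 :=
          mul_le_mul_of_nonneg_left hw1 (norm_nonneg _)
        calc 2 / ‖HH (n := n) F q t‖ ^ 2 * |(inner ℝ (HH (n := n) F q t) w : ℝ)|
            ≤ 2 / ‖HH (n := n) F q t‖ ^ 2 * (‖HH (n := n) F q t‖ * 1) :=
              mul_le_mul_of_nonneg_left (le_trans h h2) (by positivity)
          _ = 2 / ‖HH (n := n) F q t‖ := by field_simp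
      have e20 : ‖(2 : ℝ)‖ = 2 := by norm_num
      rw [e20]
      calc 2 * _ + ‖(2 / ‖HH (n := n) F q t‖ ^ 2 * (inner ℝ (HH (n := n) F q t) w : ℝ))‖ * _
          ≤ 2 * (1 * √(thN n F q t)) + 2 / ‖HH (n := n) F q t‖ * (1 * √(eH n F q t)) :=
            add_le_add (mul_le_mul_of_nonneg_left (le_trans e15 e16') (by norm_num))
              (mul_le_mul e19 (le_trans e14 e16) (norm_nonneg _) (by positivity))
        _ = 2 * √(thN n F q t) + 2 * √(eH n F q t) / ‖HH (n := n) F q t‖ := by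
            field_simp

end Pool.Agent.Helper21.HC
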